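import Pool.Agent.H17.BD.Final

/-!
The affine group of a field and an embedding of the free monoid.
-/

set_option autoImplicit false
set_option linter.unusedSectionVars false

namespace Pool.Agent.H17.MV

/-- affine maps of a field -/
@[ext] structure Af (K : Type) [Field K] where
  a : Kˣ
  b : K

section group

variable {K : Type} [Field K]

instance : Mul (Af K) := ⟨fun x y => ⟨x.a * y.a, x.b + x.a * y.b⟩⟩
instance : One (Af K) := ⟨⟨1, 0⟩⟩
instance : Inv (Af K) := ⟨fun x => ⟨x.a⁻¹, -((x.a⁻¹ : Kˣ) : K) * x.b⟩⟩

theorem mul_a (x y : Af K) : (x * y).a = x.a * y.a := rfl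
theorem mul_b (x y : Af K) : (x * y).b = x.b + x.a * y.b := rfl
theorem one_a : (1 : Af K).a = 1 := rfl
theorem one_b : (1 : Af K).b = 0 := rfl
theorem inv_a (x : Af K) : (x⁻¹).a = x.a⁻¹ := rfl
theorem inv_b (x : Af K) : (x⁻¹).b = -((x.a⁻¹ : Kˣ) : K) * x.b := rfl

instance : Group (Af K) := Group.ofLeftAxioms
  (by
    intro x y z
    apply Af.ext
    · rw [mul_a, mul_a, mul_a, mul_a, mul_assoc]
    · rw [mul_b, mul_b, mul_b, mul_b, mul_a]
      push_cast
      ring)
  (by
    intro x
    apply Af.ext
    · rw [mul_a, one_a, one_mul]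
    · rw [mul_b, one_a, one_b]
      simp)
  (by
    intro x
    apply Af.ext
    · rw [mul_a, inv_a, inv_mul_cancel, one_a]
    · rw [mul_b, inv_a, inv_b, one_b]
      ring)

/-- elements commuting with `g` have the fixed point of `g` -/
theorem comm_fix {g x : Af K} (hg : (g.a : K) ≠ 1) (h : x * g = g * x) :
    x.b = (1 - (x.a : K)) * (g.b / (1 - g.a)) := by
  have h1 := congrArg Af.b h
  rw [mul_b, mul_b] at h1
  have h2 : (1 : K) - g.a ≠ 0 := sub_ne_zero.mpr (Ne.symm hg)
  field_simp
  linear_combination h1

end group

section embed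

variable (B : Type)

/-- the polynomial ring -/
abbrev Rg : Type := Polynomial (MvPolynomial B ℚ)

/-- the field -/
abbrev Kf : Type := FractionRing (Rg B)

variable {B}

/-- the variable as a unit -/
noncomputable def T : (Kf B)ˣ := Units.mk0 (algebraMap (Rg B) (Kf B) Polynomial.X)
  (by
    intro h
    have h1 := (map_eq_zero_iff _ (IsFractionRing.injective (Rg B) (Kf B))).mp h
    exact Polynomial.X_ne_zero h1)

theorem T_coe : ((T : (Kf B)ˣ) : Kf B) = algebraMap (Rg B) (Kf B) Polynomial.X := rfl

theorem T_pow_inj {n m : ℕ} (h : (T : (Kf B)ˣ) ^ n = T ^ m) : n = m := by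
  have h1 : ((T : (Kf B)ˣ) : Kf B) ^ n = ((T : (Kf B)ˣ) : Kf B) ^ m := by
    rw [← Units.val_pow_eq_pow_val, ← Units.val_pow_eq_pow_val, h]
  rw [T_coe, ← map_pow, ← map_pow] at h1
  have h2 := IsFractionRing.injective (Rg B) (Kf B) h1
  have h3 := congrArg Polynomial.natDegree h2
  simpa using h3

/-- the polynomial of a word -/
noncomputable def pol : List B → Rg B
  | [] => 0
  | b :: x => Polynomial.C (MvPolynomial.X b) + Polynomial.X * pol x

theorem pol_inj : ∀ x y : List B, x.length = y.length → pol x = pol y → x = y := by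
  intro x
  induction x with
  | nil =>
    intro y hl _
    exact (List.length_eq_zero_iff.mp hl.symm).symm
  | cons b x ih =>
    intro y hl h
    cases y with
    | nil => simp at hl
    | cons c y =>
      have h1 : Polynomial.C (MvPolynomial.X b) + Polynomial.X * pol x =
          Polynomial.C (MvPolynomial.X c) + Polynomial.X * pol y := h
      have h2 : (MvPolynomial.X b : MvPolynomial B ℚ) = MvPolynomial.X c := by
        have := congrArg (fun p => Polynomial.coeff p 0) h1
        simpa using this
      have hbc : b = c := MvPolynomial.X_injective h2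
      subst hbc
      have h3 : Polynomial.X * pol x = Polynomial.X * pol y := add_left_cancel h1
      have h4 := mul_left_cancel₀ Polynomial.X_ne_zero h3
      rw [ih y (by simpa using hl) h4]

/-- the embedding of words -/
noncomputable def io (x : List B) : Af (Kf B) :=
  (x.map (fun b => (⟨T, algebraMap (Rg B) (Kf B) (Polynomial.C (MvPolynomial.X b))⟩ :
    Af (Kf B)))).prod

theorem io_append (x y : List B) : io (x ++ y) = io x * io y := by
  unfold io
  rw [List.map_append, List.prod_append]

theorem io_nil : io ([] : List B) = 1 := rfl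

theorem io_a (x : List B) : (io x).a = T ^ x.length := by
  induction x with
  | nil => rfl
  | cons b x ih =>
    have h : io (b :: x) = ⟨T, algebraMap (Rg B) (Kf B) (Polynomial.C (MvPolynomial.X b))⟩ * io x := by
      unfold io
      rw [List.map_cons, List.prod_cons]
    rw [h, mul_a, ih, List.length_cons, pow_succ']

theorem io_b (x : List B) : (io x).b = algebraMap (Rg B) (Kf B) (pol x) := by
  induction x with
  | nil =>
    show (0 : Kf B) = algebraMap (Rg B) (Kf B) 0
    rw [map_zero]
  | cons b x ih =>
    have h : io (b :: x) = ⟨T, algebraMap (Rg B) (Kf B) (Polynomial.C (MvPolynomial.X b))⟩ * io x := by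
      unfold io
      rw [List.map_cons, List.prod_cons]
    rw [h, mul_b, ih]
    show _ = algebraMap (Rg B) (Kf B) (Polynomial.C (MvPolynomial.X b) + Polynomial.X * pol x)
    rw [map_add, map_mul]
    rfl

theorem io_inj {x y : List B} (h : io x = io y) : x = y := by
  have h1 : x.length = y.length := by
    have := congrArg Af.a h
    rw [io_a, io_a] at this
    exact T_pow_inj this
  have h2 := congrArg Af.b h
  rw [io_b, io_b] at h2
  exact pol_inj x y h1 (IsFractionRing.injective (Rg B) (Kf B) h2)

theorem io_a_ne {x : List B} (hx : x ≠ []) : ((io x).a : Kf B) ≠ 1 := by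
  intro h
  have h1 : (io x).a = 1 := Units.ext h
  rw [io_a] at h1
  have h2 : (T : (Kf B)ˣ) ^ x.length = T ^ 0 := by rw [h1, pow_zero]
  have h3 := T_pow_inj h2
  exact hx (List.length_eq_zero_iff.mp h3)

end embed

end Pool.Agent.H17.MV
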