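import Pool.Agent.H17.MV.Lin

/-!
Test sets for languages in which a factor can be moved.
-/

set_option autoImplicit false
set_option linter.unusedSectionVars false

namespace Pool.Agent.H17.MV

open BD

variable {A : Type} [Fintype A] [DecidableEq A]

/-- all words obtained from `y` by inserting `p` are in `L` -/
def Slide (L : Set (List A)) (p y : List A) : Prop :=
  ∀ y1 y2 : List A, y = y1 ++ y2 → y1 ++ (p ++ y2) ∈ L

/-- the pairs with given noncommuting letters -/
def Wp (P : Finset A) (p : List A) : Set (Pr A) :=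
  {π | p.flatMap π.g ≠ [] ∧ p.flatMap π.h ≠ [] ∧ ∀ d, d ∈ P ↔ ¬ Cm π.g p d}

/-- left constants -/
noncomputable def Xs (π : Pr A) (p : List A) : Option A → Af (Kf π.B)
  | none => 1
  | some d => (im π.g [d])⁻¹ * omd π p d * im π.h [d]

/-- right constants -/
noncomputable def Ys (π : Pr A) (p : List A) : Option A → Af (Kf π.B)
  | none => im π.g p * (im π.h p)⁻¹
  | some d => omd π p d

/-- letters with a site -/
def Sited (L : Set (List A)) (p : List A) (a : A) : Prop :=
  ∃ u v : List A, u ++ (p ++ a :: v) ∈ L ∧ u ++ a :: (p ++ v) ∈ L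

/-- located words -/
def Loc (L : Set (List A)) (P : Finset A) (p : List A) (s s' : Option A) : Set (List A) :=
  {w | (∀ a ∈ w, a ∉ P ∧ Sited L p a) ∧ ∃ S : Finset (List A), (S : Set (List A)) ⊆ L ∧
    S.card ≤ 4 ∧ ∀ π ∈ Wp P p, (∀ x ∈ S, Ag π x) → Xs π p s * im π.h w = im π.g w * Ys π p s'}

theorem sited_of_slide {L : Set (List A)} {p y u v : List A} {a : A} (h : Slide L p y)
    (hy : y = u ++ a :: v) : u ++ (p ++ a :: v) ∈ L ∧ u ++ a :: (p ++ v) ∈ L := by
  refine ⟨h u (a :: v) hy, ?_⟩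
  have h2 := h (u ++ [a]) v (by rw [hy]; simp)
  simpa using h2

theorem sited_mem {L : Set (List A)} {p y : List A} {a : A} (h : Slide L p y) (ha : a ∈ y) :
    Sited L p a := by
  obtain ⟨u, v, hy⟩ := List.append_of_mem ha
  exact ⟨u, v, sited_of_slide h hy⟩

theorem card_four (a b c d : List A) : ({a, b, c, d} : Finset (List A)).card ≤ 4 :=
  Finset.card_le_four

theorem loc_start {L : Set (List A)} {P : Finset A} {p y w v : List A} {d' : A}
    (h : Slide L p y) (hy : y = w ++ d' :: v) (hw : ∀ a ∈ w, a ∉ P) (hd' : d' ∈ P) :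
    w ∈ Loc L P p none (some d') := by
  refine ⟨fun a ha => ⟨hw a ha, sited_mem h (by rw [hy]; simp [ha])⟩,
    {w ++ (p ++ d' :: v), w ++ d' :: (p ++ v)}, ?_, ?_, ?_⟩
  · have h1 := sited_of_slide h hy
    intro x hx
    simp only [Finset.coe_insert, Finset.coe_singleton, Set.mem_insert_iff,
      Set.mem_singleton_iff] at hx
    rcases hx with rfl | rfl
    · exact h1.1
    · exact h1.2
  · exact Finset.card_le_two.trans (by norm_num)
  · intro π hπ hS
    have h1 := site_om (hS (w ++ (p ++ d' :: v)) (by simp)) (hS (w ++ d' :: (p ++ v)) (by simp))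
      ((hπ.2.2 d').mp hd')
    show 1 * im π.h w = im π.g w * omd π p d'
    rw [← h1]
    unfold om
    group

theorem loc_mid {L : Set (List A)} {P : Finset A} {p y u w v : List A} {d d' : A}
    (h : Slide L p y) (hy : y = u ++ d :: (w ++ d' :: v)) (hw : ∀ a ∈ w, a ∉ P) (hd : d ∈ P)
    (hd' : d' ∈ P) : w ∈ Loc L P p (some d) (some d') := by
  have hy2 : y = (u ++ d :: w) ++ d' :: v := by rw [hy]; simp
  refine ⟨fun a ha => ⟨hw a ha, sited_mem h (by rw [hy]; simp [ha])⟩,
    {u ++ (p ++ d :: (w ++ d' :: v)), u ++ d :: (p ++ (w ++ d' :: v)),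
      (u ++ d :: w) ++ (p ++ d' :: v), (u ++ d :: w) ++ d' :: (p ++ v)}, ?_, card_four _ _ _ _, ?_⟩
  · have h1 := sited_of_slide h hy
    have h2 := sited_of_slide h hy2
    intro x hx
    simp only [Finset.coe_insert, Finset.coe_singleton, Set.mem_insert_iff,
      Set.mem_singleton_iff] at hx
    rcases hx with rfl | rfl | rfl | rfl
    · exact h1.1
    · exact h1.2
    · exact h2.1
    · exact h2.2
  · intro π hπ hS
    have h1 := site_om (hS (u ++ (p ++ d :: (w ++ d' :: v))) (by simp))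
      (hS (u ++ d :: (p ++ (w ++ d' :: v))) (by simp)) ((hπ.2.2 d).mp hd)
    have h2 := site_om (hS ((u ++ d :: w) ++ (p ++ d' :: v)) (by simp))
      (hS ((u ++ d :: w) ++ d' :: (p ++ v)) (by simp)) ((hπ.2.2 d').mp hd')
    show ((im π.g [d])⁻¹ * omd π p d * im π.h [d]) * im π.h w = im π.g w * omd π p d'
    rw [← h1, ← h2, om_append, im_cons π.g d w, im_cons π.h d w]
    group

theorem loc_end {L : Set (List A)} {P : Finset A} {p y u w : List A} {d : A}
    (h : Slide L p y) (hy : y = u ++ d :: w) (hw : ∀ a ∈ w, a ∉ P) (hd : d ∈ P) :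
    w ∈ Loc L P p (some d) none := by
  refine ⟨fun a ha => ⟨hw a ha, sited_mem h (by rw [hy]; simp [ha])⟩,
    {u ++ (p ++ d :: w), u ++ d :: (p ++ w), (u ++ d :: w) ++ p}, ?_, ?_, ?_⟩
  · have h1 := sited_of_slide h hy
    have h2 := h y [] (by simp)
    rw [List.append_nil, hy] at h2
    intro x hx
    simp only [Finset.coe_insert, Finset.coe_singleton, Set.mem_insert_iff,
      Set.mem_singleton_iff] at hx
    rcases hx with rfl | rfl | rfl
    · exact h1.1
    · exact h1.2
    · exact h2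
  · exact Finset.card_le_three.trans (by norm_num)
  · intro π hπ hS
    have h1 := site_om (hS (u ++ (p ++ d :: w)) (by simp)) (hS (u ++ d :: (p ++ w)) (by simp))
      ((hπ.2.2 d).mp hd)
    have h2 := hS ((u ++ d :: w) ++ p) (by simp)
    unfold Ag at h2
    rw [← om_eq_one, om_append, om_append, im_cons π.g d w, im_cons π.h d w, h1] at h2
    show ((im π.g [d])⁻¹ * omd π p d * im π.h [d]) * im π.h w =
      im π.g w * (im π.g p * (im π.h p)⁻¹)
    have h3 : im π.g w * im π.g p * ((im π.g p)⁻¹ *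
        ((im π.g [d] * im π.g w)⁻¹ * omd π p d * (im π.h [d] * im π.h w)) * im π.h p) *
        (im π.h p)⁻¹ = im π.g w * im π.g p * 1 * (im π.h p)⁻¹ := by rw [h2]
    calc ((im π.g [d])⁻¹ * omd π p d * im π.h [d]) * im π.h w
        = im π.g w * im π.g p * ((im π.g p)⁻¹ *
          ((im π.g [d] * im π.g w)⁻¹ * omd π p d * (im π.h [d] * im π.h w)) * im π.h p) *
          (im π.h p)⁻¹ := by group
      _ = im π.g w * im π.g p * 1 * (im π.h p)⁻¹ := h3
      _ = _ := by group

theorem loc_whole {L : Set (List A)} {P : Finset A} {p y : List A}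
    (h : Slide L p y) (hw : ∀ a ∈ y, a ∉ P) : y ∈ Loc L P p none none := by
  refine ⟨fun a ha => ⟨hw a ha, sited_mem h ha⟩, {y ++ p}, ?_, ?_, ?_⟩
  · have h2 := h y [] (by simp)
    rw [List.append_nil] at h2
    intro x hx
    simp only [Finset.coe_singleton, Set.mem_singleton_iff] at hx
    rw [hx]
    exact h2
  · simp
  · intro π hπ hS
    have h2 := hS (y ++ p) (by simp)
    unfold Ag at h2
    rw [← im_inj, im_append, im_append] at h2
    show 1 * im π.h y = im π.g y * (im π.g p * (im π.h p)⁻¹)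
    rw [← mul_assoc, h2]
    group

omit [Fintype A] in
theorem exists_last {P : Finset A} {y : List A} (h : ∃ a ∈ y, a ∈ P) :
    ∃ (u : List A) (c : A) (w : List A), y = u ++ c :: w ∧ c ∈ P ∧ ∀ a ∈ w, a ∉ P := by
  induction y with
  | nil => obtain ⟨a, ha, -⟩ := h; simp at ha
  | cons b y ih =>
    by_cases h1 : ∃ a ∈ y, a ∈ P
    · obtain ⟨u, c, w, h2, h3, h4⟩ := ih h1
      exact ⟨b :: u, c, w, by rw [h2]; rfl, h3, h4⟩
    · obtain ⟨a, ha, haP⟩ := h
      push Not at h1
      rcases List.mem_cons.mp ha with rfl | ha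
      · exact ⟨[], a, y, rfl, haP, h1⟩
      · exact absurd haP (h1 a ha)

/-- the conditions on a pair which give the agreement -/
theorem agree_of_loc {L : Set (List A)} {P : Finset A} {p y : List A} {π : Pr A}
    (hπ : π ∈ Wp P p) (hy : Slide L p y) (hcm : ∀ a, Sited L p a → Cm π.g p a → Cm π.h p a)
    (hpc : ∀ a, Sited L p a → ¬ Cm π.g p a → Pc π p a)
    (hloc : ∀ s s' : Option A, ∀ w ∈ Loc L P p s s', Xs π p s * im π.h w = im π.g w * Ys π p s') :
    ∀ y2 y1 : List A, y = y1 ++ y2 → Ag π (y1 ++ (p ++ y2)) := by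
  have hom : ∀ (n : ℕ) (u v : List A) (d : A), u.length ≤ n → y = u ++ d :: v → d ∈ P →
      om π u = omd π p d := by
    intro n
    induction n with
    | zero =>
      intro u v d hu hyu hd
      have hu0 : u = [] := List.length_eq_zero_iff.mp (by omega)
      have h1 := hloc none (some d) u (loc_start hy hyu (by simp [hu0]) hd)
      have h2 : 1 * im π.h u = im π.g u * omd π p d := h1
      unfold om
      rw [one_mul] at h2
      rw [h2]
      group
    | succ n ih =>
      intro u v d hu hyu hd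
      by_cases hP : ∃ a ∈ u, a ∈ P
      · obtain ⟨u0, c, w, e1, e2, e3⟩ := exists_last hP
        have hyc : y = u0 ++ c :: (w ++ d :: v) := by rw [hyu, e1]; simp
        have h0 := ih u0 (w ++ d :: v) c (by rw [e1] at hu; simp at hu; omega) hyc e2
        have h1 := hloc (some c) (some d) w (loc_mid hy hyc e3 e2 hd)
        have h2 : ((im π.g [c])⁻¹ * omd π p c * im π.h [c]) * im π.h w =
          im π.g w * omd π p d := h1
        have h3 : u0 ++ c :: w = u0 ++ ([c] ++ w) := rfl
        rw [e1, h3, om_append, h0, im_append, im_append]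
        calc (im π.g [c] * im π.g w)⁻¹ * omd π p c * (im π.h [c] * im π.h w)
            = (im π.g w)⁻¹ * (((im π.g [c])⁻¹ * omd π p c * im π.h [c]) * im π.h w) := by group
          _ = (im π.g w)⁻¹ * (im π.g w * omd π p d) := by rw [h2]
          _ = _ := by group
      · push Not at hP
        have h1 := hloc none (some d) u (loc_start hy hyu hP hd)
        have h2 : 1 * im π.h u = im π.g u * omd π p d := h1
        unfold om
        rw [one_mul] at h2
        rw [h2]
        group
  have hend : om π y = im π.g p * (im π.h p)⁻¹ := by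
    by_cases hP : ∃ a ∈ y, a ∈ P
    · obtain ⟨u0, c, w, e1, e2, e3⟩ := exists_last hP
      have h0 := hom u0.length u0 w c le_rfl e1 e2
      have h1 := hloc (some c) none w (loc_end hy e1 e3 e2)
      have h2 : ((im π.g [c])⁻¹ * omd π p c * im π.h [c]) * im π.h w =
        im π.g w * (im π.g p * (im π.h p)⁻¹) := h1
      have h3 : u0 ++ c :: w = u0 ++ ([c] ++ w) := rfl
      rw [e1, h3, om_append, h0, im_append, im_append]
      calc (im π.g [c] * im π.g w)⁻¹ * omd π p c * (im π.h [c] * im π.h w)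
          = (im π.g w)⁻¹ * (((im π.g [c])⁻¹ * omd π p c * im π.h [c]) * im π.h w) := by group
        _ = (im π.g w)⁻¹ * (im π.g w * (im π.g p * (im π.h p)⁻¹)) := by rw [h2]
        _ = _ := by group
    · push Not at hP
      have h1 := hloc none none y (loc_whole hy hP)
      have h2 : 1 * im π.h y = im π.g y * (im π.g p * (im π.h p)⁻¹) := h1
      unfold om
      rw [one_mul] at h2
      rw [h2]
      group
  intro y2
  induction y2 with
  | nil =>
    intro y1 hy1
    rw [List.append_nil] at hy1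
    rw [List.append_nil, ← hy1]
    unfold Ag
    rw [← om_eq_one, om_append, hend]
    group
  | cons d y2 ih =>
    intro y1 hy1
    have h1 := ih (y1 ++ [d]) (by rw [hy1]; simp)
    have h2 : Ag π (y1 ++ d :: (p ++ y2)) := by simpa using h1
    have hsd : Sited L p d := ⟨y1, y2, sited_of_slide hy hy1⟩
    apply exch h2
    by_cases hc : Cm π.g p d
    · exact Or.inl ⟨hc, hcm d hsd hc⟩
    · exact Or.inr ⟨hom y1.length y1 y2 d le_rfl hy1 ((hπ.2.2 d).mpr hc), hpc d hsd hc⟩

/-- one factor -/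
theorem one_factor (L : Set (List A)) (p : List A) :
    ∃ F : Finset (List A), (F : Set (List A)) ⊆ L ∧
      F.card ≤ 2 * Fintype.card A + 2 ^ (Fintype.card A + 2) * (Fintype.card A + 1) ^ 3 ∧
      ∀ π : Pr A, p.flatMap π.g ≠ [] → p.flatMap π.h ≠ [] → (∀ x ∈ F, Ag π x) →
        ∀ y : List A, Slide L p y → ∀ y1 y2 : List A, y = y1 ++ y2 → Ag π (y1 ++ (p ++ y2)) := by
  classical
  -- letters
  have hl : ∀ a : A, ∃ S : Finset (List A), (S : Set (List A)) ⊆ L ∧ S.card ≤ 2 ∧
      (Sited L p a → ∃ u v : List A, u ++ (p ++ a :: v) ∈ S ∧ u ++ a :: (p ++ v) ∈ S) := by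
    intro a
    by_cases h : Sited L p a
    · obtain ⟨u, v, h1, h2⟩ := h
      refine ⟨{u ++ (p ++ a :: v), u ++ a :: (p ++ v)}, ?_, Finset.card_le_two,
        fun _ => ⟨u, v, by simp, by simp⟩⟩
      intro x hx
      simp only [Finset.coe_insert, Finset.coe_singleton, Set.mem_insert_iff,
        Set.mem_singleton_iff] at hx
      rcases hx with rfl | rfl
      · exact h1
      · exact h2
    · exact ⟨∅, by simp, by simp, fun h' => absurd h' h⟩
  choose Sl hSl1 hSl2 hSl3 using hl
  -- items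
  have hi : ∀ (P : Finset A) (t : Option A × Option A), ∃ F : Finset (List A),
      (F : Set (List A)) ⊆ L ∧ F.card ≤ (Fintype.card A + 1) * 4 ∧
      ∀ π ∈ Wp P p, (∀ a, Sited L p a → Cm π.g p a → Cm π.h p a) → (∀ x ∈ F, Ag π x) →
        ∀ w ∈ Loc L P p t.1 t.2, Xs π p t.1 * im π.h w = im π.g w * Ys π p t.2 := by
    intro P t
    obtain ⟨F0, h0L, h0c, h0⟩ := BD.exists_test (X := List A) (W := {π : Pr A // π ∈ Wp P p})
      (fun w π => w ∈ Ks π.1 p (Xs π.1 p t.1) (Ys π.1 p t.2)) (Fintype.card A + 1)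
      (fun J x π h1 h2 => ladder_ph J x
        (fun j => Ks (π j).1 p (Xs (π j).1 p t.1) (Ys (π j).1 p t.2))
        (fun j _ w hw => Ks_lin (π j).2.1 (π j).2.2.1 _ _ w hw) h1 h2) (Loc L P p t.1 t.2)
    have hS : ∀ w : List A, ∃ S : Finset (List A), (S : Set (List A)) ⊆ L ∧ S.card ≤ 4 ∧
        (w ∈ F0 → ∀ π ∈ Wp P p, (∀ x ∈ S, Ag π x) →
          Xs π p t.1 * im π.h w = im π.g w * Ys π p t.2) := by
      intro w
      by_cases hw : w ∈ F0
      · obtain ⟨-, S, h1, h2, h3⟩ := h0L hw
        exact ⟨S, h1, h2, fun _ => h3⟩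
      · exact ⟨∅, by simp, by simp, fun h => absurd h hw⟩
    choose S hS1 hS2 hS3 using hS
    refine ⟨F0.biUnion S, ?_, ?_, ?_⟩
    · intro x hx
      obtain ⟨w, -, hw⟩ := Finset.mem_biUnion.mp (Finset.mem_coe.mp hx)
      exact hS1 w hw
    · refine Finset.card_biUnion_le.trans ((Finset.sum_le_card_nsmul _ _ 4
        (fun w _ => hS2 w)).trans ?_)
      rw [smul_eq_mul]
      exact Nat.mul_le_mul_right 4 h0c
    · intro π hπ hcm hag w hw
      have hlet : ∀ w ∈ Loc L P p t.1 t.2, ∀ a ∈ w, Cm π.g p a ∧ Cm π.h p a := by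
        intro w hw a ha
        have h1 := hw.1 a ha
        have h2 : Cm π.g p a := by
          by_contra hcon
          exact h1.1 ((hπ.2.2 a).mpr hcon)
        exact ⟨h2, hcm a h1.2 h2⟩
      have h1 := h0 ⟨π, hπ⟩ (fun f hf => ⟨hlet f (h0L hf), hS3 f hf π hπ (fun x hx =>
        hag x (Finset.mem_biUnion.mpr ⟨f, hf, hx⟩))⟩) w hw
      exact h1.2
  choose Fi hFi1 hFi2 hFi3 using hi
  refine ⟨Finset.univ.biUnion Sl ∪ Finset.univ.biUnion (fun P => Finset.univ.biUnion (Fi P)),
    ?_, ?_, ?_⟩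
  · intro x hx
    rcases Finset.mem_union.mp (Finset.mem_coe.mp hx) with h | h
    · obtain ⟨a, -, ha⟩ := Finset.mem_biUnion.mp h
      exact hSl1 a ha
    · obtain ⟨P, -, hP⟩ := Finset.mem_biUnion.mp h
      obtain ⟨t, -, ht⟩ := Finset.mem_biUnion.mp hP
      exact hFi1 P t ht
  · refine (Finset.card_union_le _ _).trans ?_
    have h1 : (Finset.univ.biUnion Sl).card ≤ 2 * Fintype.card A := by
      refine Finset.card_biUnion_le.trans ((Finset.sum_le_card_nsmul _ _ 2
        (fun a _ => hSl2 a)).trans ?_)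
      rw [smul_eq_mul, Finset.card_univ, mul_comm]
    have h2 : (Finset.univ.biUnion (fun P => Finset.univ.biUnion (Fi P))).card ≤
        2 ^ Fintype.card A * (((Fintype.card A + 1) * (Fintype.card A + 1)) *
          ((Fintype.card A + 1) * 4)) := by
      refine Finset.card_biUnion_le.trans ((Finset.sum_le_card_nsmul _ _
        (((Fintype.card A + 1) * (Fintype.card A + 1)) * ((Fintype.card A + 1) * 4))
        (fun P _ => ?_)).trans ?_)
      · refine Finset.card_biUnion_le.trans ((Finset.sum_le_card_nsmul _ _ _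
          (fun t _ => hFi2 P t)).trans ?_)
        rw [smul_eq_mul, Finset.card_univ, Fintype.card_prod, Fintype.card_option]
      · rw [smul_eq_mul, Finset.card_univ, Fintype.card_finset]
    have h3 : 2 ^ Fintype.card A * (((Fintype.card A + 1) * (Fintype.card A + 1)) *
        ((Fintype.card A + 1) * 4)) = 2 ^ (Fintype.card A + 2) * (Fintype.card A + 1) ^ 3 := by
      rw [pow_add]
      ring
    omega
  · intro π hg hh hag y hy y1 y2 hy12
    obtain ⟨P, hP⟩ : ∃ P : Finset A, P = Finset.univ.filter (fun d => ¬ Cm π.g p d) := ⟨_, rfl⟩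
    have hπ : π ∈ Wp P p := ⟨hg, hh, fun d => by rw [hP]; simp⟩
    have hagl : ∀ a, Sited L p a → ∃ u v : List A, Ag π (u ++ (p ++ a :: v)) ∧
        Ag π (u ++ a :: (p ++ v)) := by
      intro a ha
      obtain ⟨u, v, h1, h2⟩ := hSl3 a ha
      exact ⟨u, v, hag _ (Finset.mem_union_left _ (Finset.mem_biUnion.mpr
        ⟨a, Finset.mem_univ _, h1⟩)), hag _ (Finset.mem_union_left _ (Finset.mem_biUnion.mpr
        ⟨a, Finset.mem_univ _, h2⟩))⟩
    have hcm : ∀ a, Sited L p a → Cm π.g p a → Cm π.h p a := by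
      intro a ha hc
      obtain ⟨u, v, h1, h2⟩ := hagl a ha
      exact site_cm h1 h2 hc
    have hpc : ∀ a, Sited L p a → ¬ Cm π.g p a → Pc π p a := by
      intro a ha hc
      obtain ⟨u, v, h1, h2⟩ := hagl a ha
      exact site_pc h1 h2 hc
    refine agree_of_loc hπ hy hcm hpc (fun s s' w hw => ?_) y2 y1 hy12
    exact hFi3 P (s, s') π hπ hcm (fun x hx => hag x (Finset.mem_union_right _
      (Finset.mem_biUnion.mpr ⟨P, Finset.mem_univ _, Finset.mem_biUnion.mpr
        ⟨(s, s'), Finset.mem_univ _, hx⟩⟩))) w hw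

end Pool.Agent.H17.MV
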