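import Pool.Agent.H17.MV.Site

/-!
The local conditions are affine linear in the Parikh vector.
-/

set_option autoImplicit false
set_option linter.unusedSectionVars false

namespace Pool.Agent.H17.MV

open BD

variable {A : Type} [Fintype A] [DecidableEq A]

/-- the Parikh vector with an additional coordinate one -/
noncomputable def ph (w : List A) : Option A → ℚ := pk (none :: w.map some)

theorem fl_ph (δ : Option A → ℤ) (w : List A) :
    fl δ (ph w) = ((δ none + ds (fun a => δ (some a)) w : ℤ) : ℚ) := by
  unfold ph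
  rw [fl_pk]
  congr 1
  unfold ds
  rw [List.map_cons, List.sum_cons, List.map_map]
  rfl

theorem ph_zero {E : Set (List A)} (δ : Option A → ℤ)
    (h : ∀ x ∈ E, δ none + ds (fun a => δ (some a)) x = 0) {w : List A}
    (hw : ph w ∈ Submodule.span ℚ (ph '' E)) : δ none + ds (fun a => δ (some a)) w = 0 := by
  have h1 : Submodule.span ℚ (ph '' E) ≤ LinearMap.ker (fl δ) := by
    rw [Submodule.span_le]
    rintro v ⟨y, hy, rfl⟩
    simp only [SetLike.mem_coe, LinearMap.mem_ker]
    rw [fl_ph, h y hy]
    simp
  have h2 := h1 hw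
  rw [LinearMap.mem_ker, fl_ph] at h2
  exact_mod_cast h2

theorem ladder_ph (J : Finset ℕ) (x : ℕ → List A)
    (E : ℕ → Set (List A)) (hE : ∀ j ∈ J, ∀ w, ph w ∈ Submodule.span ℚ (ph '' (E j)) → w ∈ E j)
    (hlad : ∀ i ∈ J, ∀ j ∈ J, i < j → x i ∈ E j) (hnot : ∀ j ∈ J, x j ∉ E j) :
    J.card ≤ Fintype.card A + 1 := by
  classical
  have hmono : ∀ i k : ℕ, i ≤ k →
      Submodule.span ℚ {v | ∃ j ∈ J, j < i ∧ v = ph (x j)} ≤
      Submodule.span ℚ {v | ∃ j ∈ J, j < k ∧ v = ph (x j)} := by
    intro i k hik
    apply Submodule.span_mono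
    rintro v ⟨j, hj, hji, rfl⟩
    exact ⟨j, hj, by omega, rfl⟩
  refine card_le_of_measure J
    (fun i => Module.finrank ℚ (Submodule.span ℚ {v | ∃ j ∈ J, j < i ∧ v = ph (x j)}))
    _ ?_ ?_ ?_
  · intro i k hik
    exact Submodule.finrank_mono (hmono i k hik)
  · intro i
    have := Submodule.finrank_le
      (Submodule.span ℚ {v : Option A → ℚ | ∃ j ∈ J, j < i ∧ v = ph (x j)})
    rwa [Module.finrank_fintype_fun_eq_card, Fintype.card_option] at this
  · intro i hi
    apply Submodule.finrank_lt_finrank_of_lt
    refine lt_of_le_of_ne (hmono i (i + 1) (Nat.le_succ i)) ?_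
    intro heq
    apply hnot i hi
    apply hE i hi
    have h1 : ph (x i) ∈ Submodule.span ℚ {v | ∃ j ∈ J, j < i + 1 ∧ v = ph (x j)} :=
      Submodule.subset_span ⟨i, hi, Nat.lt_succ_self i, rfl⟩
    rw [← heq] at h1
    refine Submodule.span_mono ?_ h1
    rintro v ⟨j, hj, hji, rfl⟩
    exact ⟨x j, hlad j hj i hi hji, rfl⟩

/-- the set of the words satisfying a local condition -/
def Ks (π : Pr A) (p : List A) (X Y : Af (Kf π.B)) : Set (List A) :=
  {w | (∀ a ∈ w, Cm π.g p a ∧ Cm π.h p a) ∧ X * im π.h w = im π.g w * Y}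

theorem comm_word {B : Type} {w : A → List B} {p x : List A} (h : ∀ a ∈ x, Cm w p a) :
    im w x * im w p = im w p * im w x := by
  induction x with
  | nil => rw [im_nil, one_mul, mul_one]
  | cons a x ih =>
    have h1 := ih (fun b hb => h b (List.mem_cons_of_mem _ hb))
    have h2 : im w [a] * im w p = im w p * im w [a] := by
      have h3 : Cm w p a := h a List.mem_cons_self
      rw [← im_append, ← im_append]
      unfold Cm at h3
      unfold im
      rw [List.flatMap_append, List.flatMap_append, List.flatMap_cons, List.flatMap_nil,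
        List.append_nil, h3]
    rw [im_cons w a x, mul_assoc, h1, ← mul_assoc, h2, mul_assoc]

theorem im_b {B : Type} {w : A → List B} {p x : List A} (hp : p.flatMap w ≠ [])
    (h : ∀ a ∈ x, Cm w p a) :
    (im w x).b = (1 - ((T ^ (x.flatMap w).length : (Kf B)ˣ) : Kf B)) *
      ((im w p).b / (1 - ((im w p).a : Kf B))) := by
  rw [← im_a]
  exact comm_fix (io_a_ne hp) (comm_word h)

theorem ds_length {B : Type} (w : A → List B) (x : List A) :
    ds (fun a => ((w a).length : ℤ)) x = ((x.flatMap w).length : ℤ) := ds_len w x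

theorem ds_sub' {d e : A → ℤ} (x : List A) : ds (fun a => d a - e a) x = ds d x - ds e x := by
  induction x with
  | nil => simp [ds]
  | cons a x ih =>
    have h1 : ds (fun a => d a - e a) (a :: x) = (d a - e a) + ds (fun a => d a - e a) x := by
      simp [ds]
    have h2 : ds d (a :: x) = d a + ds d x := by simp [ds]
    have h3 : ds e (a :: x) = e a + ds e x := by simp [ds]
    rw [h1, h2, h3, ih]
    ring

theorem ds_ind (a : A) (x : List A) :
    ds (fun b => if b = a then (1 : ℤ) else 0) x = (x.count a : ℤ) := by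
  induction x with
  | nil => simp [ds]
  | cons b x ih =>
    have h1 : ds (fun b => if b = a then (1 : ℤ) else 0) (b :: x) =
      (if b = a then (1 : ℤ) else 0) + ds (fun b => if b = a then (1 : ℤ) else 0) x := by
      simp [ds]
    rw [h1, ih, List.count_cons]
    by_cases hb : b = a
    · simp [hb, add_comm]
    · simp [hb]

theorem Ks_lin {π : Pr A} {p : List A} (hg : p.flatMap π.g ≠ []) (hh : p.flatMap π.h ≠ [])
    (X Y : Af (Kf π.B)) (w : List A) (hw : ph w ∈ Submodule.span ℚ (ph '' Ks π p X Y)) :
    w ∈ Ks π p X Y := by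
  classical
  -- the components of the condition
  obtain ⟨k, hk⟩ : ∃ k, k = (im π.g p).b / (1 - ((im π.g p).a : Kf π.B)) := ⟨_, rfl⟩
  obtain ⟨k', hk'⟩ : ∃ k', k' = (im π.h p).b / (1 - ((im π.h p).a : Kf π.B)) := ⟨_, rfl⟩
  have kr : ∀ x : List A, (∀ a ∈ x, Cm π.g p a ∧ Cm π.h p a) →
      (X * im π.h x = im π.g x * Y ↔
        X.a * T ^ (x.flatMap π.h).length = T ^ (x.flatMap π.g).length * Y.a ∧
        X.b + X.a * k' - k =
          ((T ^ (x.flatMap π.g).length : (Kf π.B)ˣ) : Kf π.B) * (Y.b + Y.a * k' - k)) := by
    intro x hx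
    have b1 := im_b hg (fun a ha => (hx a ha).1)
    have b2 := im_b hh (fun a ha => (hx a ha).2)
    rw [← hk] at b1
    rw [← hk'] at b2
    rw [Af.ext_iff, mul_a, mul_a, mul_b, mul_b, im_a, im_a, b1, b2]
    constructor
    · rintro ⟨h1, h2⟩
      refine ⟨h1, ?_⟩
      have h3 := congrArg (fun u : (Kf π.B)ˣ => (u : Kf π.B)) h1
      simp only [Units.val_mul] at h3
      linear_combination h2 + k' * h3
    · rintro ⟨h1, h2⟩
      refine ⟨h1, ?_⟩
      have h3 := congrArg (fun u : (Kf π.B)ˣ => (u : Kf π.B)) h1
      simp only [Units.val_mul] at h3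
      linear_combination h2 - k' * h3
  -- a solution
  obtain ⟨w0, hw0⟩ : ∃ w0, w0 ∈ Ks π p X Y := by
    by_contra hcon
    push Not at hcon
    have h1 := ph_zero (E := Ks π p X Y) (fun o => if o = none then 1 else 0)
      (fun x hx => absurd hx (hcon x)) hw
    have h2 : ∀ x : List A, ds (fun a : A => if (some a : Option A) = none then (1 : ℤ) else 0) x = 0 := by
      intro x
      induction x with
      | nil => simp [ds]
      | cons a x ih =>
        have h1 : ds (fun a : A => if (some a : Option A) = none then (1 : ℤ) else 0) (a :: x) =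
          0 + ds (fun a : A => if (some a : Option A) = none then (1 : ℤ) else 0) x := by
          simp [ds]
        rw [h1, ih, add_zero]
    rw [h2] at h1
    simp at h1
  have hlet : ∀ a ∈ w, Cm π.g p a ∧ Cm π.h p a := by
    intro a ha
    by_contra hcon
    have h1 := ph_zero (E := Ks π p X Y) (fun o => if o = some a then 1 else 0) (by
      intro x hx
      have h2 : a ∉ x := fun hax => hcon (hx.1 a hax)
      have h3 := ds_ind a x
      rw [List.count_eq_zero.mpr h2] at h3
      simpa using h3) hw
    have h3 := ds_ind a w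
    have h4 : 0 < w.count a := List.count_pos_iff.mpr ha
    simp only [reduceCtorEq, if_false, Option.some.injEq, zero_add] at h1
    rw [h3] at h1
    omega
  obtain ⟨c1, c2⟩ := (kr w0 hw0.1).mp hw0.2
  have hdiff : ∀ x ∈ Ks π p X Y, ((x.flatMap π.g).length : ℤ) - (x.flatMap π.h).length =
      (w0.flatMap π.g).length - (w0.flatMap π.h).length := by
    intro x hx
    obtain ⟨d1, -⟩ := (kr x hx.1).mp hx.2
    have h1 : (X.a * Y.a) * T ^ ((x.flatMap π.h).length + (w0.flatMap π.g).length) =
        (X.a * Y.a) * T ^ ((x.flatMap π.g).length + (w0.flatMap π.h).length) := by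
      rw [pow_add, pow_add]
      calc (X.a * Y.a) * (T ^ (x.flatMap π.h).length * T ^ (w0.flatMap π.g).length)
          = (X.a * T ^ (x.flatMap π.h).length) * (T ^ (w0.flatMap π.g).length * Y.a) := by
            ac_rfl
        _ = (T ^ (x.flatMap π.g).length * Y.a) * (X.a * T ^ (w0.flatMap π.h).length) := by
            rw [d1, c1]
        _ = _ := by ac_rfl
    have h2 := T_pow_inj (mul_left_cancel h1)
    omega
  have hdw : ((w.flatMap π.g).length : ℤ) - (w.flatMap π.h).length =
      (w0.flatMap π.g).length - (w0.flatMap π.h).length := by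
    have h1 := ph_zero (E := Ks π p X Y)
      (fun o => Option.elim o (-((w0.flatMap π.g).length - (w0.flatMap π.h).length : ℤ))
        (fun a => ((π.g a).length : ℤ) - (π.h a).length)) (by
      intro x hx
      show -((w0.flatMap π.g).length - (w0.flatMap π.h).length : ℤ) +
        ds (fun a => ((π.g a).length : ℤ) - (π.h a).length) x = 0
      rw [ds_sub', ds_length, ds_length]
      have := hdiff x hx
      omega) hw
    have h2 : -((w0.flatMap π.g).length - (w0.flatMap π.h).length : ℤ) +
        ds (fun a => ((π.g a).length : ℤ) - (π.h a).length) w = 0 := h1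
    rw [ds_sub', ds_length, ds_length] at h2
    omega
  refine ⟨hlet, (kr w hlet).mpr ⟨?_, ?_⟩⟩
  · have h1 : T ^ (w0.flatMap π.g).length * (X.a * T ^ (w.flatMap π.h).length) =
        T ^ (w0.flatMap π.g).length * (T ^ (w.flatMap π.g).length * Y.a) := by
      have e1 : (w0.flatMap π.g).length + (w.flatMap π.h).length =
          (w.flatMap π.g).length + (w0.flatMap π.h).length := by omega
      calc T ^ (w0.flatMap π.g).length * (X.a * T ^ (w.flatMap π.h).length)
          = X.a * T ^ ((w0.flatMap π.g).length + (w.flatMap π.h).length) := by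
            rw [pow_add]; ac_rfl
        _ = T ^ (w.flatMap π.g).length * (X.a * T ^ (w0.flatMap π.h).length) := by
            rw [e1, pow_add]; ac_rfl
        _ = _ := by rw [c1]; ac_rfl
    exact mul_left_cancel h1
  · by_cases hB : Y.b + Y.a * k' - k = 0
    · rw [hB, mul_zero] at c2
      rw [hB, mul_zero, c2]
    · have hlen : ∀ x ∈ Ks π p X Y, ((x.flatMap π.g).length : ℤ) = (w0.flatMap π.g).length := by
        intro x hx
        obtain ⟨-, d2⟩ := (kr x hx.1).mp hx.2
        rw [c2] at d2
        have h1 := mul_right_cancel₀ hB d2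
        have h2 := T_pow_inj (Units.ext h1)
        omega
      have hlw : ((w.flatMap π.g).length : ℤ) = (w0.flatMap π.g).length := by
        have h1 := ph_zero (E := Ks π p X Y)
          (fun o => Option.elim o (-((w0.flatMap π.g).length : ℤ))
            (fun a => ((π.g a).length : ℤ))) (by
          intro x hx
          show -((w0.flatMap π.g).length : ℤ) + ds (fun a => ((π.g a).length : ℤ)) x = 0
          rw [ds_length]
          have := hlen x hx
          omega) hw
        have h2 : -((w0.flatMap π.g).length : ℤ) + ds (fun a => ((π.g a).length : ℤ)) w = 0 := h1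
        rw [ds_length] at h2
        omega
      have hlw' : (w.flatMap π.g).length = (w0.flatMap π.g).length := by exact_mod_cast hlw
      rw [hlw']
      exact c2

end Pool.Agent.H17.MV
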