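import Pool.Agent.H17.MV.Aff

/-!
Sites: two words of the equality set which differ by exchanging two neighbouring factors.
-/

set_option autoImplicit false
set_option linter.unusedSectionVars false

namespace Pool.Agent.H17.MV

open BD

variable {A B : Type}

open scoped Classical in
/-- common prefix -/
noncomputable def cp : List B → List B → List B
  | b :: x, c :: y => if b = c then b :: cp x y else []
  | _, _ => []

theorem cp_spec : ∀ (x y : List B), ¬ x <+: y → ¬ y <+: x →
    ∃ (b c : B) (u v : List B), b ≠ c ∧ x = cp x y ++ b :: u ∧ y = cp x y ++ c :: v := by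
  intro x
  induction x with
  | nil => intro y h _; exact absurd (List.nil_prefix) h
  | cons b x ih =>
    intro y h1 h2
    cases y with
    | nil => exact absurd (List.nil_prefix) h2
    | cons c y =>
      by_cases hbc : b = c
      · subst hbc
        obtain ⟨b', c', u, v, h, e1, e2⟩ := ih y
          (fun h => h1 ((List.prefix_cons_inj b).mpr h)) (fun h => h2 ((List.prefix_cons_inj b).mpr h))
        have h3 : cp (b :: x) (b :: y) = b :: cp x y := by
          rw [cp, if_pos rfl]
        exact ⟨b', c', u, v, h, by rw [h3, List.cons_append, ← e1],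
          by rw [h3, List.cons_append, ← e2]⟩
      · have h3 : cp (b :: x) (c :: y) = [] := by
          rw [cp, if_neg hbc]
        exact ⟨b, c, x, y, hbc, by rw [h3]; rfl, by rw [h3]; rfl⟩

theorem cp_ne {x y : List B} (hxy : x ≠ y) (hl : x.length = y.length) :
    ∃ (b c : B) (u v : List B), b ≠ c ∧ x = cp x y ++ b :: u ∧ y = cp x y ++ c :: v :=
  cp_spec x y (fun h => hxy (h.eq_of_length hl)) (fun h => hxy (h.eq_of_length hl.symm).symm)

/-- the site lemma -/
theorem site {gu hu gv hv p p' q q' : List B} (hpl : p.length = p'.length)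
    (hql : q.length = q'.length) (hp : p ≠ p')
    (h1 : gu ++ (p ++ gv) = hu ++ (q ++ hv)) (h2 : gu ++ (p' ++ gv) = hu ++ (q' ++ hv)) :
    gu ++ cp p p' = hu ++ cp q q' := by
  have hq : q ≠ q' := by
    intro hqq
    apply hp
    rw [hqq, ← h2] at h1
    exact List.append_cancel_right (List.append_cancel_left h1)
  obtain ⟨b, c, u, v, hbc, e1, e2⟩ := cp_ne hp hpl
  obtain ⟨b', c', u', v', hbc', e1', e2'⟩ := cp_ne hq hql
  have h3 : (gu ++ cp p p') ++ b :: (u ++ gv) = (hu ++ cp q q') ++ b' :: (u' ++ hv) := by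
    have a1 : (gu ++ cp p p') ++ b :: (u ++ gv) = gu ++ (p ++ gv) := by
      conv_rhs => rw [e1]
      simp
    have a2 : (hu ++ cp q q') ++ b' :: (u' ++ hv) = hu ++ (q ++ hv) := by
      conv_rhs => rw [e1']
      simp
    rw [a1, a2, h1]
  have h4 : (gu ++ cp p p') ++ c :: (v ++ gv) = (hu ++ cp q q') ++ c' :: (v' ++ hv) := by
    have a1 : (gu ++ cp p p') ++ c :: (v ++ gv) = gu ++ (p' ++ gv) := by
      conv_rhs => rw [e2]
      simp
    have a2 : (hu ++ cp q q') ++ c' :: (v' ++ hv) = hu ++ (q' ++ hv) := by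
      conv_rhs => rw [e2']
      simp
    rw [a1, a2, h2]
  exact (List.append_inj h3 (branch_pos hbc hbc' h3 h4)).1

/-- a pair of homomorphisms -/
structure Pr (A : Type) where
  B : Type
  g : A → List B
  h : A → List B

/-- images in the affine group -/
noncomputable def im {A B : Type} (w : A → List B) (x : List A) : Af (Kf B) := io (x.flatMap w)

theorem im_append (w : A → List B) (x y : List A) : im w (x ++ y) = im w x * im w y := by
  unfold im
  rw [List.flatMap_append, io_append]

theorem im_cons (w : A → List B) (a : A) (y : List A) : im w (a :: y) = im w [a] * im w y :=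
  im_append w [a] y

theorem im_nil (w : A → List B) : im w [] = 1 := rfl

theorem im_inj {w w' : A → List B} {x : List A} : im w x = im w' x ↔ x.flatMap w = x.flatMap w' :=
  ⟨fun h => io_inj h, fun h => by unfold im; rw [h]⟩

theorem im_a (w : A → List B) (x : List A) : (im w x).a = T ^ (x.flatMap w).length := io_a _

/-- the state after `x` -/
noncomputable def om (π : Pr A) (x : List A) : Af (Kf π.B) := (im π.g x)⁻¹ * im π.h x

theorem om_nil (π : Pr A) : om π [] = 1 := by
  unfold om
  rw [im_nil, im_nil]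
  group

theorem om_append (π : Pr A) (x y : List A) :
    om π (x ++ y) = (im π.g y)⁻¹ * om π x * im π.h y := by
  unfold om
  rw [im_append, im_append, mul_inv_rev]
  group

theorem om_eq_one (π : Pr A) (x : List A) : om π x = 1 ↔ x.flatMap π.g = x.flatMap π.h := by
  unfold om
  rw [inv_mul_eq_one, im_inj]

/-- `p` and the letter `d` commute under `w` -/
def Cm {B : Type} (w : A → List B) (p : List A) (d : A) : Prop :=
  p.flatMap w ++ w d = w d ++ p.flatMap w

/-- the state at a site -/
noncomputable def omd (π : Pr A) (p : List A) (d : A) : Af (Kf π.B) :=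
  io (cp (p.flatMap π.g ++ π.g d) (π.g d ++ p.flatMap π.g)) *
    (io (cp (p.flatMap π.h ++ π.h d) (π.h d ++ p.flatMap π.h)))⁻¹

theorem fm1 (w : A → List B) (u p v : List A) (d : A) :
    (u ++ (p ++ d :: v)).flatMap w =
      u.flatMap w ++ ((p.flatMap w ++ w d) ++ v.flatMap w) := by
  simp [List.flatMap_append, List.flatMap_cons]

theorem fm2 (w : A → List B) (u p v : List A) (d : A) :
    (u ++ d :: (p ++ v)).flatMap w =
      u.flatMap w ++ ((w d ++ p.flatMap w) ++ v.flatMap w) := by
  simp [List.flatMap_append, List.flatMap_cons]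

/-- agreement -/
def Ag (π : Pr A) (x : List A) : Prop := x.flatMap π.g = x.flatMap π.h

theorem site_om {π : Pr A} {p u v : List A} {d : A} (h1 : Ag π (u ++ (p ++ d :: v)))
    (h2 : Ag π (u ++ d :: (p ++ v))) (hd : ¬ Cm π.g p d) : om π u = omd π p d := by
  unfold Ag at h1 h2
  rw [fm1, fm1] at h1
  rw [fm2, fm2] at h2
  have h3 := site (by simp [Nat.add_comm]) (by simp [Nat.add_comm]) hd h1 h2
  have h4 := congrArg io h3
  rw [io_append, io_append] at h4
  unfold om omd im
  rw [eq_mul_inv_iff_mul_eq, mul_assoc, ← h4]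
  group

theorem site_cm {π : Pr A} {p u v : List A} {d : A} (h1 : Ag π (u ++ (p ++ d :: v)))
    (h2 : Ag π (u ++ d :: (p ++ v))) (hd : Cm π.g p d) : Cm π.h p d := by
  unfold Ag at h1 h2
  rw [fm1, fm1] at h1
  rw [fm2, fm2] at h2
  unfold Cm at hd
  rw [hd, h2] at h1
  exact (List.append_cancel_right (List.append_cancel_left h1)).symm

/-- the exchange condition -/
def Pc (π : Pr A) (p : List A) (d : A) : Prop :=
  (im π.g (p ++ [d]))⁻¹ * omd π p d * im π.h (p ++ [d]) =
    (im π.g (d :: p))⁻¹ * omd π p d * im π.h (d :: p)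

theorem site_pc {π : Pr A} {p u v : List A} {d : A} (h1 : Ag π (u ++ (p ++ d :: v)))
    (h2 : Ag π (u ++ d :: (p ++ v))) (hd : ¬ Cm π.g p d) : Pc π p d := by
  have h3 := site_om h1 h2 hd
  unfold Pc
  rw [← h3, ← om_append, ← om_append]
  have e1 : u ++ (p ++ d :: v) = (u ++ (p ++ [d])) ++ v := by simp
  have e2 : u ++ d :: (p ++ v) = (u ++ (d :: p)) ++ v := by simp
  unfold Ag at h1 h2
  rw [← om_eq_one, e1, om_append] at h1
  rw [← om_eq_one, e2, om_append] at h2
  rw [← h2] at h1
  have h4 := mul_right_cancel h1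
  exact mul_left_cancel h4

/-- exchange in one direction -/
theorem exch {π : Pr A} {p u v : List A} {d : A} (h2 : Ag π (u ++ d :: (p ++ v)))
    (hc : (Cm π.g p d ∧ Cm π.h p d) ∨ (om π u = omd π p d ∧ Pc π p d)) :
    Ag π (u ++ (p ++ d :: v)) := by
  rcases hc with ⟨c1, c2⟩ | ⟨c1, c2⟩
  · unfold Ag at *
    rw [fm2, fm2] at h2
    rw [fm1, fm1]
    unfold Cm at c1 c2
    rw [c1, c2, h2]
  · have e1 : u ++ (p ++ d :: v) = (u ++ (p ++ [d])) ++ v := by simp
    have e2 : u ++ d :: (p ++ v) = (u ++ (d :: p)) ++ v := by simp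
    unfold Ag at *
    rw [← om_eq_one, e2, om_append] at h2
    rw [← om_eq_one, e1, om_append, ← h2]
    unfold Pc at c2
    rw [← c1, ← om_append, ← om_append] at c2
    rw [c2]

end Pool.Agent.H17.MV
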